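import Pool.Agent.H880R2.BigMCG.Defs

namespace Pool.Agent.H880R2.BigMCG

open Set

/-- A real number all of whose natural multiples are bounded is zero. -/
lemma eq_zero_of_mul_bounded {x D : ℝ} (h : ∀ m : ℕ, |(m : ℝ) * x| ≤ D) : x = 0 := by
  by_contra hx
  have hx' : 0 < |x| := abs_pos.mpr hx
  obtain ⟨m, hm⟩ := exists_nat_gt (D / |x|)
  have h1 := h m
  rw [abs_mul, Nat.abs_cast] at h1
  rw [div_lt_iff₀ hx'] at hm
  linarith

section
variable {W : Type} [Group W]

lemma quasi_hom_of_swindle (N : Subgroup W) [N.Normal] (τ : W)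
    (hW : ∀ w : W, ∃ k : ℤ, w * (τ ^ k)⁻¹ ∈ N)
    (hN : ∀ n ∈ N, ∃ a : W, n = a * τ * a⁻¹ * τ⁻¹)
    (φ : W → ℝ) (hφ : φ ∈ Q W) (g h : W) : φ (g * h) = φ g + φ h := by
  obtain ⟨⟨D, hD⟩, hhom⟩ := hφ
  have hinv : ∀ g, φ g⁻¹ = - φ g := by
    intro g
    have := hhom g (-1)
    simpa using this
  have hD0 : 0 ≤ D := le_trans (abs_nonneg _) (hD 1 1)
  -- φ is bounded on N
  have hb : ∀ n ∈ N, |φ n| ≤ 3 * D := by
    intro n hn
    obtain ⟨a, rfl⟩ := hN n hn
    have h1 := hD (a * τ * a⁻¹) τ⁻¹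
    have h2 := hD (a * τ) a⁻¹
    have h3 := hD a τ
    rw [hinv] at h1 h2
    rw [abs_le] at *
    constructor <;> linarith [h1.1, h1.2, h2.1, h2.2, h3.1, h3.2]
  have hz : ∀ n ∈ N, φ n = 0 := by
    intro n hn
    refine eq_zero_of_mul_bounded (D := 3 * D) (fun m => ?_)
    have := hhom n (m : ℤ)
    rw [Int.cast_natCast] at this
    rw [← this]
    exact hb _ (N.zpow_mem hn _)
  have hval : ∀ (w : W) (k : ℤ), w * (τ ^ k)⁻¹ ∈ N → φ w = k * φ τ := by
    intro w k hw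
    have hbd : ∀ m : ℕ, |(m : ℝ) * (φ w - k * φ τ)| ≤ D := by
      intro m
      have hmem : w ^ (m : ℤ) * (τ ^ (k * m))⁻¹ ∈ N := by
        rw [← QuotientGroup.eq_one_iff] at hw ⊢
        rw [QuotientGroup.mk_mul, QuotientGroup.mk_inv, mul_inv_eq_one, QuotientGroup.mk_zpow] at hw ⊢
        rw [QuotientGroup.mk_zpow, hw, zpow_mul]
      have h1 := hD (w ^ (m : ℤ) * (τ ^ (k * m))⁻¹) (τ ^ (k * m))
      rw [inv_mul_cancel_right, hz _ hmem, hhom, hhom] at h1
      push_cast at h1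
      calc |(m : ℝ) * (φ w - k * φ τ)| = |m * φ w - 0 - k * m * φ τ| := by ring_nf
        _ ≤ D := h1
    linarith [eq_zero_of_mul_bounded hbd]
  obtain ⟨k, hk⟩ := hW g
  obtain ⟨l, hl⟩ := hW h
  have hkl : g * h * (τ ^ (k + l))⁻¹ ∈ N := by
    rw [← QuotientGroup.eq_one_iff] at hk hl ⊢
    rw [QuotientGroup.mk_mul, QuotientGroup.mk_inv, mul_inv_eq_one, QuotientGroup.mk_zpow] at hk hl ⊢
    rw [QuotientGroup.mk_mul, hk, hl, zpow_add]
  rw [hval _ _ hk, hval _ _ hl, hval _ _ hkl]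
  push_cast
  ring

/-- If all homogeneous quasimorphisms on `W` are homomorphisms, then the same holds for every
quotient of `W`. -/
lemma homSub_eq_top_of_surjective {H : Type} [Group H] (π : W →* H)
    (hπ : Function.Surjective π)
    (hW : ∀ φ ∈ Q W, ∀ g h : W, φ (g * h) = φ g + φ h) : HomSub H = ⊤ := by
  rw [eq_top_iff]
  rintro ⟨φ, ⟨D, hD⟩, hhom⟩ -
  intro g h
  obtain ⟨a, rfl⟩ := hπ g
  obtain ⟨b, rfl⟩ := hπ h
  have hmem : (fun w => φ (π w)) ∈ Q W :=
    ⟨⟨D, fun x y => by simpa using hD (π x) (π y)⟩, fun x n => by simpa using hhom (π x) n⟩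
  have := hW _ hmem a b
  simpa using this

end

/-- Transfer of an invariant mean. -/
lemma exists_mean {H G Y : Type} [Group H] [Group G] (hH : IsAmenable H) (ρ : G →* H)
    (act : G →* Equiv.Perm Y) (X : Set Y)
    (hker : ∀ g, ρ g = 1 → ∀ x ∈ X, act g x = x) (x0 : Y) (hx0 : x0 ∈ X) :
    ∃ ν : Set Y → ℝ, (∀ A, 0 ≤ ν A) ∧ ν univ = 1 ∧
      (∀ A B, Disjoint A B → ν (A ∪ B) = ν A + ν B) ∧
      ∀ (g : G) (A : Set Y), ν (act g '' A) = ν A := by
  classical
  obtain ⟨μ, h0, h1, hadd, hinv⟩ := hH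
  -- representatives of right cosets
  let K : Subgroup H := ρ.range
  let r : H → H := fun h => (Quotient.out (Quotient.mk (QuotientGroup.rightRel K) h))
  have hr : ∀ h, h * (r h)⁻¹ ∈ K := by
    intro h
    have : (QuotientGroup.rightRel K) (r h) h := Quotient.mk_out (s := QuotientGroup.rightRel K) h
    rwa [QuotientGroup.rightRel_apply] at this
  have hr2 : ∀ (g : G) h, r (ρ g * h) = r h := by
    intro g h
    have : Quotient.mk (QuotientGroup.rightRel K) (ρ g * h) =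
        Quotient.mk (QuotientGroup.rightRel K) h := by
      refine Quotient.sound' ?_
      rw [QuotientGroup.rightRel_apply]
      refine ⟨g⁻¹, ?_⟩
      simp
    simp only [r, this]
  choose gg hgg using hr
  let f : H → Y := fun h => act (gg h) x0
  have heq : ∀ a b : G, ρ a = ρ b → ∀ x ∈ X, act a x = act b x := by
    intro a b hab x hx
    have : ρ (b⁻¹ * a) = 1 := by rw [map_mul, map_inv, hab, inv_mul_cancel]
    have h2 := hker _ this x hx
    rw [map_mul, Equiv.Perm.mul_apply, map_inv, Equiv.Perm.inv_eq_iff_eq] at h2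
    exact h2
  have hf : ∀ (g : G) h, f (ρ g * h) = act g (f h) := by
    intro g h
    have : ρ (gg (ρ g * h)) = ρ (g * gg h) := by
      rw [hgg, map_mul, hgg, hr2, mul_assoc]
    simp only [f]
    rw [heq _ _ this x0 hx0, map_mul, Equiv.Perm.mul_apply]
  refine ⟨fun A => μ (f ⁻¹' A), fun A => h0 _, by simpa using h1, fun A B hAB => ?_,
    fun g A => ?_⟩
  · show μ (f ⁻¹' (A ∪ B)) = μ (f ⁻¹' A) + μ (f ⁻¹' B)
    rw [preimage_union]
    exact hadd _ _ (hAB.preimage f)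
  · have : f ⁻¹' (act g '' A) = (fun x => ρ g * x) '' (f ⁻¹' A) := by
      ext h
      simp only [mem_preimage, mem_image]
      constructor
      · rintro ⟨y, hy, hyh⟩
        refine ⟨(ρ g)⁻¹ * h, ?_, by group⟩
        have h3 := hf g⁻¹ h
        rw [map_inv] at h3
        rw [h3, ← hyh, map_inv]
        simpa using hy
      · rintro ⟨x, hx, rfl⟩
        exact ⟨f x, hx, (hf g x).symm⟩
    simp only [this, hinv]

end Pool.Agent.H880R2.BigMCG
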