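import Pool.Agent.H880R2.BigMCG.Swindle

namespace Pool.Agent.H880R2.BigMCG

open Set

/-! ### The increasing bijection `ψ : ℝ → (0,1)` with `ψ(K) = C ∩ (0,1)` -/

/-- `ψ (k + u) = t ^ k (2/3 + 2u/9)` for `k ∈ ℤ`, `u ∈ [0,1)`. -/
noncomputable def psi (x : ℝ) : ℝ := (tPerm ^ ⌊x⌋ : Equiv.Perm ℝ) (2 / 3 + 2 / 9 * Int.fract x)

lemma tPerm_two_thirds : tPerm (2 / 3) = 8 / 9 := by
  rw [tPerm_apply]; unfold tFun; norm_num

lemma psi_lt (x : ℝ) : psi x < (tPerm ^ (⌊x⌋ + 1) : Equiv.Perm ℝ) (2 / 3) := by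
  rw [zpow_add_one, Equiv.Perm.mul_apply, tPerm_two_thirds]
  refine strictMono_zpow tPerm_mem.1 _ ?_
  have := Int.fract_lt_one x
  linarith

lemma le_psi (x : ℝ) : (tPerm ^ ⌊x⌋ : Equiv.Perm ℝ) (2 / 3) ≤ psi x := by
  refine (strictMono_zpow tPerm_mem.1 _).monotone ?_
  have := Int.fract_nonneg x
  linarith

lemma orbit_lt (k : ℤ) : (tPerm ^ k : Equiv.Perm ℝ) (2 / 3) < (tPerm ^ (k + 1) : Equiv.Perm ℝ) (2 / 3) := by
  rw [zpow_add_one, Equiv.Perm.mul_apply, tPerm_two_thirds]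
  refine strictMono_zpow tPerm_mem.1 _ ?_
  norm_num

lemma orbit_mono : StrictMono (fun k : ℤ => (tPerm ^ k : Equiv.Perm ℝ) (2 / 3)) :=
  strictMono_int_of_lt_succ orbit_lt

lemma psi_strictMono : StrictMono psi := by
  intro x y hxy
  rcases (Int.floor_mono hxy.le).lt_or_eq with h | h
  · have h1 := psi_lt x
    have h2 := le_psi y
    have h3 : (tPerm ^ (⌊x⌋ + 1) : Equiv.Perm ℝ) (2 / 3) ≤ (tPerm ^ ⌊y⌋ : Equiv.Perm ℝ) (2 / 3) :=
      orbit_mono.monotone (by omega : ⌊x⌋ + 1 ≤ ⌊y⌋)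
    linarith
  · unfold psi
    rw [h]
    refine strictMono_zpow tPerm_mem.1 _ ?_
    unfold Int.fract
    rw [h]
    linarith

lemma orbit_pos (k : ℕ) : (tPerm ^ (k : ℤ) : Equiv.Perm ℝ) (2 / 3) = 1 - (1 / 3) ^ (k + 1) := by
  induction k with
  | zero => norm_num
  | succ k ih =>
    push_cast
    rw [add_comm, zpow_one_add, Equiv.Perm.mul_apply, ih, tPerm_apply]
    have h1 : (0 : ℝ) < (1 / 3) ^ (k + 1) := by positivity
    have h2 : ((1 : ℝ) / 3) ^ (k + 1) ≤ 1 / 3 := by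
      rw [pow_succ]
      have : ((1 : ℝ) / 3) ^ k ≤ 1 := pow_le_one₀ (by norm_num) (by norm_num)
      linarith
    unfold tFun
    rw [if_neg (by linarith), if_neg (by linarith), if_neg (by linarith), if_pos (by linarith)]
    ring

lemma orbit_neg (k : ℕ) : (tPerm ^ (-(k : ℤ)) : Equiv.Perm ℝ) (2 / 3) = 2 / 3 * (1 / 3) ^ k := by
  induction k with
  | zero => norm_num
  | succ k ih =>
    push_cast
    rw [neg_add, add_comm, zpow_add, Equiv.Perm.mul_apply, ih, zpow_neg_one, tPerm_symm_apply]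
    have h1 : (0 : ℝ) < (1 / 3) ^ k := by positivity
    have h2 : ((1 : ℝ) / 3) ^ k ≤ 1 := pow_le_one₀ (by norm_num) (by norm_num)
    unfold sFun
    rw [if_neg (by linarith), if_pos (by linarith)]
    ring

lemma orbit_mem (k : ℤ) : (tPerm ^ k : Equiv.Perm ℝ) (2 / 3) ∈ Ioo (0 : ℝ) 1 := by
  obtain ⟨n, rfl | rfl⟩ := k.eq_nat_or_neg
  · rw [orbit_pos]
    have h1 : (0 : ℝ) < (1 / 3) ^ (n + 1) := by positivity
    have h2 : ((1 : ℝ) / 3) ^ (n + 1) ≤ 1 / 3 := by
      rw [pow_succ]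
      have : ((1 : ℝ) / 3) ^ n ≤ 1 := pow_le_one₀ (by norm_num) (by norm_num)
      linarith
    constructor <;> linarith
  · rw [orbit_neg]
    have h1 : (0 : ℝ) < (1 / 3) ^ n := by positivity
    have h2 : ((1 : ℝ) / 3) ^ n ≤ 1 := pow_le_one₀ (by norm_num) (by norm_num)
    constructor <;> linarith

lemma psi_mem (x : ℝ) : psi x ∈ Ioo (0 : ℝ) 1 :=
  ⟨lt_of_lt_of_le (orbit_mem _).1 (le_psi x), lt_trans (psi_lt x) (orbit_mem _).2⟩

lemma psi_surj {y : ℝ} (hy : y ∈ Ioo (0 : ℝ) 1) : ∃ x, psi x = y := by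
  -- find the index of the fundamental domain
  have hex : ∃ k : ℤ, y < (tPerm ^ k : Equiv.Perm ℝ) (2 / 3) := by
    obtain ⟨n, hn⟩ := exists_pow_lt_of_lt_one (sub_pos.mpr hy.2) (by norm_num : (1 / 3 : ℝ) < 1)
    refine ⟨n, ?_⟩
    rw [orbit_pos]
    have : ((1 : ℝ) / 3) ^ (n + 1) ≤ (1 / 3) ^ n := by
      rw [pow_succ]
      have : (0 : ℝ) < (1 / 3) ^ n := by positivity
      linarith
    linarith
  have hlow : ∃ b : ℤ, ∀ k : ℤ, y < (tPerm ^ k : Equiv.Perm ℝ) (2 / 3) → b ≤ k := by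
    obtain ⟨n, hn⟩ := exists_pow_lt_of_lt_one hy.1 (by norm_num : (1 / 3 : ℝ) < 1)
    refine ⟨-n, fun k hk => ?_⟩
    by_contra h
    push Not at h
    have h2 := orbit_mono h
    simp only at h2
    rw [orbit_neg] at h2
    have : (0 : ℝ) < (1 / 3) ^ n := by positivity
    linarith
  obtain ⟨k, hk, hmin⟩ := Int.exists_least_of_bdd hlow hex
  have hk1 : (tPerm ^ (k - 1) : Equiv.Perm ℝ) (2 / 3) ≤ y := by
    by_contra h
    push Not at h
    have := hmin _ h
    omega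
  set z := (tPerm ^ (-(k - 1)) : Equiv.Perm ℝ) y with hz
  have hyz : y = (tPerm ^ (k - 1) : Equiv.Perm ℝ) z := by
    rw [hz, ← Equiv.Perm.mul_apply, ← zpow_add]; simp
  have h0 : 2 / 3 ≤ z := by
    rw [← (strictMono_zpow tPerm_mem.1 (k - 1)).le_iff_le, ← hyz]; exact hk1
  have h1 : z < 8 / 9 := by
    rw [← (strictMono_zpow tPerm_mem.1 (k - 1)).lt_iff_lt, ← hyz, ← tPerm_two_thirds,
      ← Equiv.Perm.mul_apply, ← zpow_add_one, sub_add_cancel]
    exact hk
  set u := 9 / 2 * (z - 2 / 3) with hu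
  have hu0 : 0 ≤ u := by rw [hu]; linarith
  have hu1 : u < 1 := by rw [hu]; linarith
  refine ⟨((k - 1 : ℤ) : ℝ) + u, ?_⟩
  unfold psi
  rw [Int.floor_intCast_add, Int.floor_eq_zero_iff.mpr ⟨hu0, hu1⟩, add_zero,
    Int.fract_intCast_add, Int.fract_eq_self.mpr ⟨hu0, hu1⟩, hyz, hu]
  ring_nf

lemma psi_mem_cantor (x : ℝ) : psi x ∈ cantorSet ↔ x ∈ K := by
  have h0 := Int.fract_nonneg x
  have h1 := Int.fract_lt_one x
  unfold psi K
  rw [mem_zpow_iff tPerm_mem, mem_ofPred_eq, cantor_three_sub (by linarith),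
    cantor_three (by linarith)]
  ring_nf

/-- `ψ` as a bijection `ℝ ≃ (0,1)`. -/
noncomputable def psiEquiv : ℝ ≃ {x : ℝ // x ∈ Ioo (0 : ℝ) 1} :=
  Equiv.ofBijective (fun x => ⟨psi x, psi_mem x⟩)
    ⟨fun x y h => psi_strictMono.injective (congrArg Subtype.val h), fun y => by
      obtain ⟨x, hx⟩ := psi_surj y.2
      exact ⟨x, Subtype.ext hx⟩⟩

lemma psiEquiv_apply (x : ℝ) : (psiEquiv x : ℝ) = psi x := rfl

open Classical in
/-- The compression: conjugate by `ψ` and extend by the identity outside of `(0,1)`. -/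
noncomputable def cHom : Equiv.Perm ℝ →* Equiv.Perm ℝ :=
  Equiv.Perm.extendDomainHom psiEquiv

lemma cHom_psi (e : Equiv.Perm ℝ) (x : ℝ) : cHom e (psi x) = psi (e x) := by
  classical
  exact Equiv.Perm.extendDomain_apply_image e psiEquiv x

lemma cHom_not (e : Equiv.Perm ℝ) {y : ℝ} (hy : y ∉ Ioo (0 : ℝ) 1) : cHom e y = y := by
  classical
  exact Equiv.Perm.extendDomain_apply_not_subtype e psiEquiv hy

lemma cHom_mem {e : Equiv.Perm ℝ} (he : e ∈ AutOf K) : cHom e ∈ AutOf cantorSet := by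
  refine ⟨fun y z hyz => ?_, fun y => ?_⟩
  · by_cases hy : y ∈ Ioo (0 : ℝ) 1
    · obtain ⟨x, rfl⟩ := psi_surj hy
      by_cases hz : z ∈ Ioo (0 : ℝ) 1
      · obtain ⟨w, rfl⟩ := psi_surj hz
        rw [cHom_psi, cHom_psi]
        exact psi_strictMono (he.1 (psi_strictMono.lt_iff_lt.mp hyz))
      · rw [cHom_psi, cHom_not e hz]
        have h1 := psi_mem (e x)
        have h2 : 1 ≤ z := by
          by_contra h
          exact hz ⟨lt_trans hy.1 hyz, not_le.mp h⟩
        linarith [h1.2]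
    · rw [cHom_not e hy]
      by_cases hz : z ∈ Ioo (0 : ℝ) 1
      · obtain ⟨w, rfl⟩ := psi_surj hz
        rw [cHom_psi]
        have h1 := psi_mem (e w)
        have h2 : y ≤ 0 := by
          by_contra h
          exact hy ⟨not_le.mp h, lt_trans hyz hz.2⟩
        linarith [h1.1]
      · rw [cHom_not e hz]
        exact hyz
  · by_cases hy : y ∈ Ioo (0 : ℝ) 1
    · obtain ⟨x, rfl⟩ := psi_surj hy
      rw [cHom_psi, psi_mem_cantor, psi_mem_cantor, he.2]
    · rw [cHom_not e hy]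

/-- The compression as a homomorphism `Aut(K) → Aut(C)`. -/
noncomputable def cAut : AutOf K →* AutOf cantorSet where
  toFun e := ⟨cHom e, cHom_mem e.2⟩
  map_one' := by ext1; simp
  map_mul' e f := by ext1; simp

/-- Scaling by one half. -/
noncomputable def half : Equiv.Perm ℝ where
  toFun x := x / 2
  invFun x := 2 * x
  left_inv x := by ring
  right_inv x := by ring

lemma half_apply (x : ℝ) : half x = x / 2 := rfl
lemma half_inv_apply (x : ℝ) : half⁻¹ x = 2 * x := rfl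

/-- The second compression, into the interval `(0, 1/2)`. -/
noncomputable def dHom : AutOf K →* W where
  toFun e := ⟨half * cHom e * half⁻¹, by
    have he := cHom_mem e.2
    have hid : ∀ x, x ∉ Ioo (0 : ℝ) (1 / 2) → (half * cHom e * half⁻¹ : Equiv.Perm ℝ) x = x := by
      intro x hx
      rw [Equiv.Perm.mul_apply, Equiv.Perm.mul_apply, half_inv_apply, cHom_not, half_apply]
      · ring
      · rintro ⟨h1, h2⟩
        exact hx ⟨by linarith, by linarith⟩
    have hin : ∀ x, x ∈ Ioo (0 : ℝ) (1 / 2) →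
        (half * cHom e * half⁻¹ : Equiv.Perm ℝ) x ∈ Ioo (0 : ℝ) (1 / 2) := by
      intro x hx
      by_contra h
      have h2 := hid _ h
      have h3 := (half * cHom e * half⁻¹ : Equiv.Perm ℝ).injective h2
      rw [h3] at h
      exact h hx
    refine ⟨⟨fun x y hxy => ?_, fun x => ?_⟩, 0, fun n => ?_⟩
    · rw [Equiv.Perm.mul_apply, Equiv.Perm.mul_apply, Equiv.Perm.mul_apply, Equiv.Perm.mul_apply,
        half_inv_apply, half_inv_apply, half_apply, half_apply]
      have := he.1 (show 2 * x < 2 * y by linarith)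
      linarith
    · by_cases hx : x ∈ Ioo (0 : ℝ) (1 / 2)
      · have h3 := hin x hx
        unfold K
        rw [mem_ofPred_eq, mem_ofPred_eq, Int.fract_eq_self.mpr ⟨h3.1.le, by linarith [h3.2]⟩,
          Int.fract_eq_self.mpr ⟨hx.1.le, by linarith [hx.2]⟩,
          Equiv.Perm.mul_apply, Equiv.Perm.mul_apply, half_inv_apply, half_apply]
        rw [show 2 * (cHom (e : Equiv.Perm ℝ) (2 * x) / 2) = cHom (e : Equiv.Perm ℝ) (2 * x) by ring]
        exact he.2 _
      · rw [hid x hx]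
    · rw [hid]
      · simp
      · rintro ⟨h1, h2⟩
        have h3 : (n : ℝ) < 1 := by linarith
        have h4 : (0 : ℤ) < n := by exact_mod_cast h1
        have h5 : n < 1 := by exact_mod_cast h3
        omega⟩
  map_one' := by ext1; simp
  map_mul' e f := by ext1; simp [mul_assoc]

lemma dHom_apply (e : AutOf K) (x : ℝ) :
    ((dHom e : W) : Equiv.Perm ℝ) x = cHom (e : Equiv.Perm ℝ) (2 * x) / 2 := rfl

/-- The inclusion `W → Aut(K)`. -/
def wIncl : W →* AutOf K where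
  toFun e := ⟨e, e.2.1⟩
  map_one' := rfl
  map_mul' _ _ := rfl

/-- If the twice compressed map acts trivially on `C`, then the original map acts trivially
on `K`. -/
lemma trivial_of_trivial (e : AutOf K)
    (h : ∀ c ∈ cantorSet, ((cAut (wIncl (dHom e)) : AutOf cantorSet) : Equiv.Perm ℝ) c = c) :
    ∀ x ∈ K, (e : Equiv.Perm ℝ) x = x := by
  have h1 : ∀ y ∈ K, ((dHom e : W) : Equiv.Perm ℝ) y = y := by
    intro y hy
    have := h (psi y) ((psi_mem_cantor y).mpr hy)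
    have h2 : cHom ((dHom e : W) : Equiv.Perm ℝ) (psi y) = psi y := this
    rw [cHom_psi] at h2
    exact psi_strictMono.injective h2
  intro x hx
  have hu := psi_mem x
  have hc := (psi_mem_cantor x).mpr hx
  have hy : psi x / 2 ∈ K := by
    unfold K
    rw [mem_ofPred_eq, Int.fract_eq_self.mpr ⟨by linarith [hu.1], by linarith [hu.2]⟩]
    rw [show 2 * (psi x / 2) = psi x by ring]
    exact hc
  have h3 := h1 _ hy
  rw [dHom_apply, show 2 * (psi x / 2) = psi x by ring, cHom_psi] at h3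
  exact psi_strictMono.injective (by linarith)

end Pool.Agent.H880R2.BigMCG
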