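import Mathlib

/-!
Definitions for MP_ac6992_gt: the mapping class group of the plane minus a Cantor set,
amenability of a discrete group, homogeneous quasimorphisms.
-/

namespace Pool.Agent.H880R2.BigMCG

open Set Topology

/-! ### The surface -/

/-- The standard (ternary) Cantor set, placed on the real axis of the plane `ℂ = ℝ²`. -/
def planeCantor : Set ℂ := {z | z.im = 0 ∧ z.re ∈ cantorSet}

/-- The surface `S = ℝ² - C`, an open subset of the plane, with the subspace topology. -/
abbrev S : Type := {z : ℂ // z ∉ planeCantor}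

/-! ### Orientation-preserving homeomorphisms -/

/-- The loop `γ` (a function on `ℝ`, in applications 1-periodic) avoids the point `p` and has
winding number `k` around `p`: there is a continuous determination `a` of the argument of
`γ - p`, and it increases by `2πk` along each period. -/
def HasWinding (γ : ℝ → ℂ) (p : ℂ) (k : ℤ) : Prop :=
  ∃ a : ℝ → ℝ, Continuous a ∧ (∀ s, a (s + 1) = a s + 2 * Real.pi * k) ∧
    ∀ s, γ s ≠ p ∧ γ s - p = (‖γ s - p‖ : ℂ) * Complex.exp ((a s : ℂ) * Complex.I)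

/-- A homeomorphism `f` of `S` is orientation-preserving if near every point `z` it preserves
winding numbers around `z`: for all loops `γ` in a punctured neighbourhood of `z`, the winding
number of `γ` around `z` is the winding number of `f ∘ γ` around `f z`
(the local degree of `f` at every point is `+1`). -/
def OrientationPreserving (f : S ≃ₜ S) : Prop :=
  ∀ z : S, ∃ U ∈ 𝓝 z, ∀ γ : ℝ → S, Continuous γ → (∀ s, γ (s + 1) = γ s) →
    (∀ s, γ s ∈ U ∧ γ s ≠ z) → ∀ k : ℤ,
      HasWinding (fun s => (γ s : ℂ)) (z : ℂ) k ↔ HasWinding (fun s => (f (γ s) : ℂ)) (f z : ℂ) k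

lemma OrientationPreserving.one : OrientationPreserving 1 :=
  fun _ => ⟨univ, Filter.univ_mem, fun _ _ _ _ _ => Iff.rfl⟩

lemma OrientationPreserving.mul {f g : S ≃ₜ S} (hf : OrientationPreserving f)
    (hg : OrientationPreserving g) : OrientationPreserving (f * g) := by
  intro z
  obtain ⟨U, hU, hUz⟩ := hg z
  obtain ⟨V, hV, hVz⟩ := hf (g z)
  refine ⟨U ∩ g ⁻¹' V, Filter.inter_mem hU (g.continuous.continuousAt hV), ?_⟩
  intro γ hγ hper hmem k
  refine (hUz γ hγ hper (fun s => ⟨(hmem s).1.1, (hmem s).2⟩) k).trans ?_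
  exact hVz (fun s => g (γ s)) (g.continuous.comp hγ) (fun s => by simp only [hper s])
    (fun s => ⟨(hmem s).1.2, fun h => (hmem s).2 (g.injective h)⟩) k

lemma OrientationPreserving.inv {f : S ≃ₜ S} (hf : OrientationPreserving f) :
    OrientationPreserving f⁻¹ := by
  intro z
  obtain ⟨U, hU, hUz⟩ := hf (f.symm z)
  refine ⟨f.symm ⁻¹' U, f.symm.continuous.continuousAt hU, ?_⟩
  intro γ hγ hper hmem k
  have := hUz (fun s => f.symm (γ s)) (f.symm.continuous.comp hγ)
    (fun s => by simp only [hper s])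
    (fun s => ⟨(hmem s).1, fun h => (hmem s).2 (f.symm.injective h)⟩) k
  simp only [Homeomorph.apply_symm_apply] at this
  exact this.symm

/-- `Homeo⁺(S)`: the group of orientation-preserving homeomorphisms of `S`. -/
def HomeoPlus : Subgroup (S ≃ₜ S) where
  carrier := {f | OrientationPreserving f}
  one_mem' := OrientationPreserving.one
  mul_mem' := OrientationPreserving.mul
  inv_mem' := OrientationPreserving.inv

/-! ### Isotopy -/

/-- A homeomorphism `f` of `X` is isotopic to the identity: there is a level-preserving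
homeomorphism `Φ` of `[0,1] × X` which is the identity at time `0` and `f` at time `1`. -/
def IsotopicToId {X : Type} [TopologicalSpace X] (f : X ≃ₜ X) : Prop :=
  ∃ Φ : (unitInterval × X) ≃ₜ (unitInterval × X),
    (∀ p, (Φ p).1 = p.1) ∧ (∀ x, Φ (0, x) = (0, x)) ∧ (∀ x, Φ (1, x) = (1, f x))

section
variable {X : Type} [TopologicalSpace X]

lemma IsotopicToId.one : IsotopicToId (1 : X ≃ₜ X) :=
  ⟨Homeomorph.refl _, fun _ => rfl, fun _ => rfl, fun _ => rfl⟩

lemma IsotopicToId.mul {f g : X ≃ₜ X} (hf : IsotopicToId f) (hg : IsotopicToId g) :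
    IsotopicToId (f * g) := by
  obtain ⟨Φ, h1, h2, h3⟩ := hf
  obtain ⟨Ψ, k1, k2, k3⟩ := hg
  refine ⟨Ψ.trans Φ, fun p => ?_, fun x => ?_, fun x => ?_⟩
  · simp only [Homeomorph.trans_apply, h1, k1]
  · simp only [Homeomorph.trans_apply, k2, h2]
  · simp only [Homeomorph.trans_apply, k3, h3, Homeomorph.mul_apply]

lemma IsotopicToId.inv {f : X ≃ₜ X} (hf : IsotopicToId f) : IsotopicToId f⁻¹ := by
  obtain ⟨Φ, h1, h2, h3⟩ := hf
  refine ⟨Φ.symm, fun p => ?_, fun x => ?_, fun x => ?_⟩
  · have := h1 (Φ.symm p)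
    rw [Φ.apply_symm_apply] at this
    exact this.symm
  · rw [Homeomorph.symm_apply_eq, h2]
  · rw [Homeomorph.symm_apply_eq, h3, Homeomorph.inv_apply, Homeomorph.apply_symm_apply]

end

/-- `Homeo₀(X)`: the group of homeomorphisms of `X` which are isotopic to the identity. -/
def Homeo0 (X : Type) [TopologicalSpace X] : Subgroup (X ≃ₜ X) where
  carrier := {f | IsotopicToId f}
  one_mem' := IsotopicToId.one
  mul_mem' := IsotopicToId.mul
  inv_mem' := IsotopicToId.inv

instance homeo0_normal (X : Type) [TopologicalSpace X] : (Homeo0 X).Normal where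
  conj_mem := by
    rintro f ⟨Φ, h1, h2, h3⟩ g
    let G : (unitInterval × X) ≃ₜ (unitInterval × X) := (Homeomorph.refl _).prodCongr g
    refine ⟨(G.symm.trans Φ).trans G, fun p => ?_, fun x => ?_, fun x => ?_⟩
    · simp [G, h1]
    · simp [G, h2]
    · simp [G, h3]

/-- `Homeo₀(S)` as a subgroup of `Homeo⁺(S)`. -/
noncomputable def Homeo0Plus : Subgroup HomeoPlus := (Homeo0 S).subgroupOf HomeoPlus

instance homeo0Plus_normal : Homeo0Plus.Normal :=
  inferInstanceAs ((Homeo0 S).subgroupOf HomeoPlus).Normal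

/-- The mapping class group `Map(S) = Homeo⁺(S) / Homeo₀(S)` of the surface `S = ℝ² - C`. -/
def MapS : Type := HomeoPlus ⧸ Homeo0Plus

/-- The quotient group structure on `Map(S)`. -/
noncomputable instance mapSGroup : Group MapS := QuotientGroup.Quotient.group Homeo0Plus

/-! ### Amenability and quasimorphisms of discrete groups -/

/-- A discrete group `G` is amenable: there is a left-invariant finitely additive probability
measure defined on all subsets of `G`. -/
def IsAmenable (G : Type) [Group G] : Prop :=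
  ∃ μ : Set G → ℝ, (∀ A, 0 ≤ μ A) ∧ μ univ = 1 ∧
    (∀ A B, Disjoint A B → μ (A ∪ B) = μ A + μ B) ∧
    ∀ (g : G) (A : Set G), μ ((fun x => g * x) '' A) = μ A

/-- `φ` is a quasimorphism: it has bounded defect. -/
def IsQuasimorphism {G : Type} [Group G] (φ : G → ℝ) : Prop :=
  ∃ D : ℝ, ∀ g h : G, |φ (g * h) - φ g - φ h| ≤ D

/-- `φ` is a homogeneous quasimorphism. -/
def IsHomogeneousQM {G : Type} [Group G] (φ : G → ℝ) : Prop :=
  IsQuasimorphism φ ∧ ∀ (g : G) (n : ℤ), φ (g ^ n) = n * φ g

section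
variable {G : Type} [Group G]

lemma IsHomogeneousQM.zero : IsHomogeneousQM (0 : G → ℝ) := ⟨⟨0, by simp⟩, by simp⟩

lemma IsHomogeneousQM.add {φ ψ : G → ℝ} (hφ : IsHomogeneousQM φ) (hψ : IsHomogeneousQM ψ) :
    IsHomogeneousQM (φ + ψ) := by
  obtain ⟨⟨D, hD⟩, h1⟩ := hφ
  obtain ⟨⟨E, hE⟩, h2⟩ := hψ
  refine ⟨⟨D + E, fun g h => ?_⟩, fun g n => ?_⟩
  · have := abs_add_le (φ (g * h) - φ g - φ h) (ψ (g * h) - ψ g - ψ h)
    calc |(φ + ψ) (g * h) - (φ + ψ) g - (φ + ψ) h|
        = |(φ (g * h) - φ g - φ h) + (ψ (g * h) - ψ g - ψ h)| := by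
          simp only [Pi.add_apply]; ring_nf
      _ ≤ _ := this
      _ ≤ D + E := add_le_add (hD g h) (hE g h)
  · simp only [Pi.add_apply, h1, h2]; ring

lemma IsHomogeneousQM.smul (c : ℝ) {φ : G → ℝ} (hφ : IsHomogeneousQM φ) :
    IsHomogeneousQM (c • φ) := by
  obtain ⟨⟨D, hD⟩, h1⟩ := hφ
  refine ⟨⟨|c| * D, fun g h => ?_⟩, fun g n => ?_⟩
  · calc |(c • φ) (g * h) - (c • φ) g - (c • φ) h| = |c * (φ (g * h) - φ g - φ h)| := by
          simp only [Pi.smul_apply, smul_eq_mul]; ring_nf
      _ = |c| * |φ (g * h) - φ g - φ h| := abs_mul _ _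
      _ ≤ |c| * D := mul_le_mul_of_nonneg_left (hD g h) (abs_nonneg c)
  · simp only [Pi.smul_apply, smul_eq_mul, h1]; ring

end

/-- `Q(G)`: the real vector space of homogeneous quasimorphisms on `G`. -/
def Q (G : Type) [Group G] : Submodule ℝ (G → ℝ) where
  carrier := {φ | IsHomogeneousQM φ}
  zero_mem' := IsHomogeneousQM.zero
  add_mem' := IsHomogeneousQM.add
  smul_mem' := fun c _ h => IsHomogeneousQM.smul c h

/-- `φ` is a homomorphism to the additive group of the reals. -/
def IsRealHom {G : Type} [Group G] (φ : G → ℝ) : Prop := ∀ g h : G, φ (g * h) = φ g + φ h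

lemma IsRealHom.add {G : Type} [Group G] {φ ψ : G → ℝ} (h1 : IsRealHom φ) (h2 : IsRealHom ψ) :
    IsRealHom (φ + ψ) := by
  intro g h
  simp only [Pi.add_apply, h1 g h, h2 g h]; ring

lemma IsRealHom.smul {G : Type} [Group G] (c : ℝ) {φ : G → ℝ} (h1 : IsRealHom φ) :
    IsRealHom (c • φ) := by
  intro g h
  simp only [Pi.smul_apply, smul_eq_mul, h1 g h]; ring

lemma IsRealHom.zero {G : Type} [Group G] : IsRealHom (0 : G → ℝ) := by
  intro g h; simp

/-- `Hom(G, ℝ)` as a subspace of `Q(G)`. -/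
def HomSub (G : Type) [Group G] : Submodule ℝ (Q G) where
  carrier := {φ | IsRealHom (φ : G → ℝ)}
  zero_mem' := IsRealHom.zero
  add_mem' := IsRealHom.add
  smul_mem' := fun c _ h => IsRealHom.smul c h

/-- `Q̃(G) = Q(G) / Hom(G, ℝ)`. -/
def Qtilde (G : Type) [Group G] : Type := Q G ⧸ HomSub G

/-- The additive group structure of the quotient `Q(G) / Hom(G, ℝ)`. -/
noncomputable instance qtildeAddCommGroup (G : Type) [Group G] : AddCommGroup (Qtilde G) :=
  Submodule.Quotient.addCommGroup (HomSub G)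

/-- The real vector space structure of the quotient `Q(G) / Hom(G, ℝ)`. -/
noncomputable instance qtildeModule (G : Type) [Group G] : Module ℝ (Qtilde G) :=
  Submodule.Quotient.module (HomSub G)

end Pool.Agent.H880R2.BigMCG
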