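import Pool.Agent.H880R2.BigMCG.Algebra

namespace Pool.Agent.H880R2.BigMCG

open Set

/-! ### Self-similarity of the Cantor set -/

lemma mem_cantor_bounds {x : ℝ} (hx : x ∈ cantorSet) : 0 ≤ x ∧ x ≤ 1 :=
  cantorSet_subset_unitInterval hx

lemma cantor_three {x : ℝ} (hx : x < 2 / 3) : x ∈ cantorSet ↔ 3 * x ∈ cantorSet := by
  constructor
  · intro h
    rw [cantorSet_eq_union_halves] at h
    rcases h with ⟨y, hy, rfl⟩ | ⟨y, hy, rfl⟩
    · have : 3 * (y / 3) = y := by ring
      simpa [this] using hy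
    · have := (mem_cantor_bounds hy).1
      simp only at hx
      linarith
  · intro h
    rw [cantorSet_eq_union_halves]
    exact Or.inl ⟨3 * x, h, by simp⟩

lemma cantor_three_sub {x : ℝ} (hx : 1 / 3 < x) : x ∈ cantorSet ↔ 3 * x - 2 ∈ cantorSet := by
  constructor
  · intro h
    rw [cantorSet_eq_union_halves] at h
    rcases h with ⟨y, hy, rfl⟩ | ⟨y, hy, rfl⟩
    · have := (mem_cantor_bounds hy).2
      simp only at hx
      linarith
    · have : 3 * ((2 + y) / 3) - 2 = y := by ring
      simpa [this] using hy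
  · intro h
    rw [cantorSet_eq_union_halves]
    exact Or.inr ⟨3 * x - 2, h, by simp⟩

/-- The group of increasing permutations of `ℝ` which preserve `A`. -/
def AutOf (A : Set ℝ) : Subgroup (Equiv.Perm ℝ) where
  carrier := {e | StrictMono e ∧ ∀ x, e x ∈ A ↔ x ∈ A}
  one_mem' := ⟨strictMono_id, fun _ => Iff.rfl⟩
  mul_mem' := by
    rintro e f ⟨h1, h2⟩ ⟨k1, k2⟩
    exact ⟨h1.comp k1, fun x => (h2 _).trans (k2 x)⟩
  inv_mem' := by
    rintro e ⟨h1, h2⟩
    refine ⟨fun x y hxy => ?_, fun x => ?_⟩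
    · rw [← h1.lt_iff_lt]
      simpa using hxy
    · have := h2 (e⁻¹ x)
      simpa using this.symm

lemma strictMono_zpow {e : Equiv.Perm ℝ} (he : StrictMono e) (k : ℤ) :
    StrictMono (e ^ k : Equiv.Perm ℝ) := by
  have : e ∈ AutOf univ := ⟨he, fun x => by simp⟩
  exact ((AutOf univ).zpow_mem this k).1

lemma mem_zpow_iff {e : Equiv.Perm ℝ} {A : Set ℝ} (he : e ∈ AutOf A) (k : ℤ) (x : ℝ) :
    (e ^ k : Equiv.Perm ℝ) x ∈ A ↔ x ∈ A :=
  ((AutOf A).zpow_mem he k).2 x

/-! ### The generator `t` of Thompson's group `F`, acting on the Cantor set -/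

/-- The underlying function. -/
noncomputable def tFun (x : ℝ) : ℝ :=
  if x ≤ 0 then x else if x ≤ 2 / 9 then 3 * x else if x ≤ 1 / 3 then x + 4 / 9
    else if x ≤ 1 then x / 3 + 2 / 3 else x

/-- Its inverse. -/
noncomputable def sFun (x : ℝ) : ℝ :=
  if x ≤ 0 then x else if x ≤ 2 / 3 then x / 3 else if x ≤ 7 / 9 then x - 4 / 9
    else if x ≤ 1 then 3 * x - 2 else x

/-- `t` as a permutation of `ℝ`. -/
noncomputable def tPerm : Equiv.Perm ℝ where
  toFun := tFun
  invFun := sFun
  left_inv := by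
    intro x
    unfold tFun sFun
    split_ifs <;> linarith
  right_inv := by
    intro x
    unfold tFun sFun
    split_ifs <;> linarith

lemma tPerm_apply (x : ℝ) : tPerm x = tFun x := rfl
lemma tPerm_symm_apply (x : ℝ) : tPerm⁻¹ x = sFun x := rfl

lemma tPerm_mem : tPerm ∈ AutOf cantorSet := by
  refine ⟨fun x y hxy => ?_, fun x => ?_⟩
  · simp only [tPerm_apply]
    unfold tFun
    split_ifs <;> linarith
  · simp only [tPerm_apply]
    unfold tFun
    split_ifs with h1 h2 h3 h4
    · rfl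
    · rw [cantor_three (x := x) (by linarith)]
    · rw [cantor_three_sub (by linarith), cantor_three (x := 3 * (x + 4 / 9) - 2) (by linarith),
        cantor_three (x := x) (by linarith), cantor_three_sub (x := 3 * x) (by linarith)]
      ring_nf
    · rw [cantor_three_sub (by linarith)]
      ring_nf
    · rfl

end Pool.Agent.H880R2.BigMCG
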