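import Pool.Agent.H880R2.BigMCG.Compress

namespace Pool.Agent.H880R2.BigMCG

open Set

/-! ### The element `g` of `Aut(K)` -/

/-- representative of `x` modulo `2` in `[0,2)` -/
noncomputable def res2 (x : ℝ) : ℝ := 2 * Int.fract (x / 2)

lemma res2_nonneg (x : ℝ) : 0 ≤ res2 x := by
  have := Int.fract_nonneg (x / 2); unfold res2; linarith

lemma res2_lt (x : ℝ) : res2 x < 2 := by
  have := Int.fract_lt_one (x / 2); unfold res2; linarith

lemma eq_res2 (x : ℝ) : x = 2 * (⌊x / 2⌋ : ℝ) + res2 x := by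
  have := Int.floor_add_fract (x / 2)
  unfold res2
  linarith

lemma floor_res2 (m : ℤ) {y : ℝ} (h0 : 0 ≤ y) (h2 : y < 2) :
    ⌊(2 * (m : ℝ) + y) / 2⌋ = m ∧ res2 (2 * (m : ℝ) + y) = y := by
  have h : (2 * (m : ℝ) + y) / 2 = m + y / 2 := by ring
  have h3 : ⌊y / 2⌋ = 0 := Int.floor_eq_zero_iff.mpr ⟨by linarith, by linarith⟩
  constructor
  · rw [h, Int.floor_intCast_add, h3, add_zero]
  · unfold res2
    rw [h, Int.fract_intCast_add, Int.fract_eq_self.mpr ⟨by linarith, by linarith⟩]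
    ring

/-- `g (2m + y) = 2m + (3/2) t⁻¹ (2y/3)` for `y ∈ [0,2)` -/
noncomputable def gFun (x : ℝ) : ℝ := 2 * (⌊x / 2⌋ : ℝ) + 3 / 2 * sFun (2 / 3 * res2 x)

/-- the inverse -/
noncomputable def gInv (x : ℝ) : ℝ := 2 * (⌊x / 2⌋ : ℝ) + 3 / 2 * tFun (2 / 3 * res2 x)

lemma sFun_bounds {y : ℝ} (h0 : 0 ≤ y) (h2 : y < 2) :
    0 ≤ 3 / 2 * sFun (2 / 3 * y) ∧ 3 / 2 * sFun (2 / 3 * y) < 2 := by
  unfold sFun
  split_ifs <;> constructor <;> linarith

lemma tFun_bounds {y : ℝ} (h0 : 0 ≤ y) (h2 : y < 2) :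
    0 ≤ 3 / 2 * tFun (2 / 3 * y) ∧ 3 / 2 * tFun (2 / 3 * y) < 2 := by
  unfold tFun
  split_ifs <;> constructor <;> linarith

/-- The element `g`. -/
noncomputable def gPerm : Equiv.Perm ℝ where
  toFun := gFun
  invFun := gInv
  left_inv := by
    intro x
    obtain ⟨h1, h2⟩ := sFun_bounds (res2_nonneg x) (res2_lt x)
    obtain ⟨h3, h4⟩ := floor_res2 ⌊x / 2⌋ h1 h2
    unfold gInv gFun
    rw [h3, h4]
    have : tFun (2 / 3 * (3 / 2 * sFun (2 / 3 * res2 x))) = 2 / 3 * res2 x := by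
      rw [show 2 / 3 * (3 / 2 * sFun (2 / 3 * res2 x)) = sFun (2 / 3 * res2 x) by ring]
      exact tPerm.right_inv _
    rw [this]
    have := eq_res2 x
    linarith
  right_inv := by
    intro x
    obtain ⟨h1, h2⟩ := tFun_bounds (res2_nonneg x) (res2_lt x)
    obtain ⟨h3, h4⟩ := floor_res2 ⌊x / 2⌋ h1 h2
    unfold gInv gFun
    rw [h3, h4]
    have : sFun (2 / 3 * (3 / 2 * tFun (2 / 3 * res2 x))) = 2 / 3 * res2 x := by
      rw [show 2 / 3 * (3 / 2 * tFun (2 / 3 * res2 x)) = tFun (2 / 3 * res2 x) by ring]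
      exact tPerm.left_inv _
    rw [this]
    have := eq_res2 x
    linarith

lemma gPerm_apply (x : ℝ) : gPerm x = gFun x := rfl

lemma fract_of_res2 (x : ℝ) : Int.fract x = Int.fract (res2 x) := by
  conv_lhs => rw [eq_res2 x]
  have : 2 * (⌊x / 2⌋ : ℝ) = ((2 * ⌊x / 2⌋ : ℤ) : ℝ) := by push_cast; ring
  rw [this, Int.fract_intCast_add]

lemma mem_K_iff (x : ℝ) : x ∈ K ↔ 2 / 3 * res2 x ∈ cantorSet := by
  have h0 := res2_nonneg x
  have h2 := res2_lt x
  unfold K
  rw [mem_ofPred_eq, fract_of_res2]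
  by_cases h : res2 x < 1
  · rw [Int.fract_eq_self.mpr ⟨h0, h⟩, cantor_three (x := 2 / 3 * res2 x) (by linarith)]
    ring_nf
  · push Not at h
    have : Int.fract (res2 x) = res2 x - 1 := by
      have h5 : res2 x = ((1 : ℤ) : ℝ) + (res2 x - 1) := by push_cast; ring
      conv_lhs => rw [h5]
      rw [Int.fract_intCast_add]
      exact Int.fract_eq_self.mpr ⟨by linarith, by linarith⟩
    rw [this, cantor_three_sub (x := 2 / 3 * res2 x) (by linarith)]
    ring_nf

lemma gPerm_mem : gPerm ∈ AutOf K := by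
  refine ⟨fun x y hxy => ?_, fun x => ?_⟩
  · rw [gPerm_apply, gPerm_apply]
    unfold gFun
    obtain ⟨h1, h2⟩ := sFun_bounds (res2_nonneg x) (res2_lt x)
    obtain ⟨h3, h4⟩ := sFun_bounds (res2_nonneg y) (res2_lt y)
    have hx := eq_res2 x
    have hy := eq_res2 y
    rcases (Int.floor_mono (show x / 2 ≤ y / 2 by linarith)).lt_or_eq with h | h
    · have h5 : (⌊x / 2⌋ : ℝ) + 1 ≤ ⌊y / 2⌋ := by exact_mod_cast h
      linarith
    · rw [h] at hx ⊢
      have h6 : res2 x < res2 y := by linarith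
      have h7 : sFun (2 / 3 * res2 x) < sFun (2 / 3 * res2 y) :=
        ((AutOf cantorSet).inv_mem tPerm_mem).1 (by linarith)
      linarith
  · rw [mem_K_iff, mem_K_iff, gPerm_apply]
    obtain ⟨h1, h2⟩ := sFun_bounds (res2_nonneg x) (res2_lt x)
    obtain ⟨h3, h4⟩ := floor_res2 ⌊x / 2⌋ h1 h2
    unfold gFun
    rw [h4, show 2 / 3 * (3 / 2 * sFun (2 / 3 * res2 x)) = sFun (2 / 3 * res2 x) by ring]
    exact ((AutOf cantorSet).inv_mem tPerm_mem).2 _

/-! ### The paradoxical decomposition -/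

/-- The set of reals whose residue modulo `2` lies in `[a, b)`. -/
def piece (a b : ℝ) : Set ℝ := {x | a ≤ res2 x ∧ res2 x < b}

lemma image_eq_of {e : Equiv.Perm ℝ} {A B : Set ℝ} (h : ∀ x, x ∈ A ↔ e x ∈ B) : e '' A = B := by
  ext y
  constructor
  · rintro ⟨x, hx, rfl⟩; exact (h x).mp hx
  · intro hy
    refine ⟨e.symm y, (h _).mpr ?_, e.apply_symm_apply y⟩
    rwa [e.apply_symm_apply]

lemma tau_piece : tau '' piece 0 1 = piece 1 2 := by
  refine image_eq_of (fun x => ?_)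
  have h0 := res2_nonneg x
  have h2 := res2_lt x
  have hx := eq_res2 x
  rw [tau_apply]
  unfold piece
  rw [mem_ofPred_eq, mem_ofPred_eq]
  by_cases h : res2 x < 1
  · have : res2 (x + 1) = res2 x + 1 := by
      have := (floor_res2 ⌊x / 2⌋ (y := res2 x + 1) (by linarith) (by linarith)).2
      rw [← this]; congr 1; linarith
    rw [this]
    constructor
    · intro _; constructor <;> linarith
    · intro _; exact ⟨h0, h⟩
  · push Not at h
    have : res2 (x + 1) = res2 x - 1 := by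
      have := (floor_res2 (⌊x / 2⌋ + 1) (y := res2 x - 1) (by linarith) (by linarith)).2
      rw [← this]; congr 1; push_cast; linarith
    rw [this]
    constructor
    · intro h5; linarith [h5.2]
    · intro h5; linarith [h5.1]

lemma res2_gPerm (x : ℝ) : res2 (gPerm x) = 3 / 2 * sFun (2 / 3 * res2 x) := by
  obtain ⟨h1, h2⟩ := sFun_bounds (res2_nonneg x) (res2_lt x)
  exact (floor_res2 ⌊x / 2⌋ h1 h2).2

lemma g_piece : gPerm '' piece 0 1 = piece 0 (1 / 3) := by
  refine image_eq_of (fun x => ?_)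
  have h0 := res2_nonneg x
  have h2 := res2_lt x
  unfold piece
  rw [mem_ofPred_eq, mem_ofPred_eq, res2_gPerm]
  unfold sFun
  split_ifs <;> constructor <;> rintro ⟨h3, h4⟩ <;> constructor <;> linarith

lemma g_piece' : gPerm '' piece (4 / 3) 2 = piece 1 2 := by
  refine image_eq_of (fun x => ?_)
  have h0 := res2_nonneg x
  have h2 := res2_lt x
  unfold piece
  rw [mem_ofPred_eq, mem_ofPred_eq, res2_gPerm]
  unfold sFun
  split_ifs <;> constructor <;> rintro ⟨h3, h4⟩ <;> constructor <;> linarith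

lemma tau_piece' : tau '' piece (1 / 3) 1 = piece (4 / 3) 2 := by
  refine image_eq_of (fun x => ?_)
  have h0 := res2_nonneg x
  have h2 := res2_lt x
  have hx := eq_res2 x
  rw [tau_apply]
  unfold piece
  rw [mem_ofPred_eq, mem_ofPred_eq]
  by_cases h : res2 x < 1
  · have : res2 (x + 1) = res2 x + 1 := by
      have := (floor_res2 ⌊x / 2⌋ (y := res2 x + 1) (by linarith) (by linarith)).2
      rw [← this]; congr 1; linarith
    rw [this]
    constructor
    · intro h5; constructor <;> linarith [h5.1]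
    · intro h5; exact ⟨by linarith [h5.1], h⟩
  · push Not at h
    have : res2 (x + 1) = res2 x - 1 := by
      have := (floor_res2 (⌊x / 2⌋ + 1) (y := res2 x - 1) (by linarith) (by linarith)).2
      rw [← this]; congr 1; push_cast; linarith
    rw [this]
    constructor
    · intro h5; linarith [h5.2]
    · intro h5; linarith [h5.1]

/-- There is no finitely additive probability measure on `ℝ` invariant under `tau` and `g`. -/
lemma no_mean (ν : Set ℝ → ℝ) (h1 : ν univ = 1)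
    (hadd : ∀ A B, Disjoint A B → ν (A ∪ B) = ν A + ν B)
    (htau : ∀ A, ν (tau '' A) = ν A) (hg : ∀ A, ν (gPerm '' A) = ν A) : False := by
  have e1 : ν (piece 1 2) = ν (piece 0 1) := by rw [← tau_piece, htau]
  have e2 : ν (piece 0 (1 / 3)) = ν (piece 0 1) := by rw [← g_piece, hg]
  have e3 : ν (piece (1 / 3) 1) = ν (piece 0 1) := by
    rw [← htau, tau_piece', ← hg, g_piece', e1]
  have e4 : ν (piece 0 1) = ν (piece 0 (1 / 3)) + ν (piece (1 / 3) 1) := by
    rw [← hadd]
    · congr 1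
      ext x
      simp only [piece, mem_union, mem_ofPred_eq]
      constructor
      · rintro ⟨h3, h4⟩
        rcases lt_or_ge (res2 x) (1 / 3) with h | h
        · exact Or.inl ⟨h3, h⟩
        · exact Or.inr ⟨h, h4⟩
      · rintro (⟨h3, h4⟩ | ⟨h3, h4⟩) <;> constructor <;> linarith
    · rw [disjoint_left]
      rintro x ⟨_, h3⟩ ⟨h4, _⟩
      linarith
  have e5 : ν univ = ν (piece 0 1) + ν (piece 1 2) := by
    rw [← hadd]
    · congr 1
      ext x
      simp only [piece, mem_union, mem_ofPred_eq, mem_univ, true_iff]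
      rcases lt_or_ge (res2 x) 1 with h | h
      · exact Or.inl ⟨res2_nonneg x, h⟩
      · exact Or.inr ⟨h, res2_lt x⟩
    · rw [disjoint_left]
      rintro x ⟨_, h3⟩ ⟨h4, _⟩
      linarith
  linarith

lemma K_nonempty : ∃ x, x ∈ K := ⟨0, by
  unfold K; rw [mem_ofPred_eq, Int.fract_zero, mul_zero]; exact zero_mem_cantorSet⟩

/-- If a group `H` receives a homomorphism from `Aut(K)` whose kernel acts trivially on `K`, then
`H` is not amenable. -/
theorem not_amenable {H : Type} [Group H] (ρ : AutOf K →* H)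
    (hker : ∀ e : AutOf K, ρ e = 1 → ∀ x ∈ K, (e : Equiv.Perm ℝ) x = x) : ¬ IsAmenable H := by
  intro hH
  obtain ⟨x0, hx0⟩ := K_nonempty
  obtain ⟨ν, -, h1, hadd, hinv⟩ := exists_mean hH ρ (AutOf K).subtype K
    (fun e he x hx => hker e he x hx) x0 hx0
  exact no_mean ν h1 hadd (fun A => hinv ⟨tau, tau_mem⟩ A) (fun A => hinv ⟨gPerm, gPerm_mem⟩ A)

end Pool.Agent.H880R2.BigMCG
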