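import Pool.Agent.H880R2.BigMCG.Paradox

namespace Pool.Agent.H880R2.BigMCG

open Set Topology Complex

/-! ### Increasing homeomorphisms of the line acting on the plane -/

/-- The map `x + iy ↦ e x + iy`. -/
noncomputable def plane (e : Equiv.Perm ℝ) (z : ℂ) : ℂ := ⟨e z.re, z.im⟩

lemma continuous_of_strictMono {e : Equiv.Perm ℝ} (he : StrictMono e) : Continuous e :=
  he.monotone.continuous_of_surjective e.surjective

lemma continuous_mk {X : Type} [TopologicalSpace X] {f g : X → ℝ} (hf : Continuous f)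
    (hg : Continuous g) : Continuous (fun x => (⟨f x, g x⟩ : ℂ)) := by
  have : (fun x => (⟨f x, g x⟩ : ℂ)) = fun x => (f x : ℂ) + (g x : ℂ) * I := by
    ext x
    exact (Complex.mk_eq_add_mul_I _ _)
  rw [this]
  fun_prop

lemma plane_continuous {e : Equiv.Perm ℝ} (he : StrictMono e) : Continuous (plane e) :=
  continuous_mk ((continuous_of_strictMono he).comp Complex.continuous_re) Complex.continuous_im

lemma plane_mem (e : AutOf cantorSet) (z : ℂ) :
    plane (e : Equiv.Perm ℝ) z ∈ planeCantor ↔ z ∈ planeCantor := by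
  unfold planeCantor plane
  rw [mem_ofPred_eq, mem_ofPred_eq]
  simp only [e.2.2]

lemma plane_plane (e f : Equiv.Perm ℝ) (z : ℂ) : plane e (plane f z) = plane (e * f) z := rfl

lemma plane_one (z : ℂ) : plane 1 z = z := rfl

/-- The homeomorphism of `S` induced by an element of `Aut(C)`. -/
noncomputable def toHomeo : AutOf cantorSet →* (S ≃ₜ S) where
  toFun e :=
    { toFun := fun z => ⟨plane e z, fun h => z.2 ((plane_mem e z).mp h)⟩
      invFun := fun z => ⟨plane (e⁻¹ : AutOf cantorSet) z, fun h => z.2 ((plane_mem e⁻¹ z).mp h)⟩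
      left_inv := by
        intro z
        ext1
        show plane _ (plane _ z) = z
        rw [plane_plane, Subgroup.coe_inv, inv_mul_cancel, plane_one]
      right_inv := by
        intro z
        ext1
        show plane _ (plane _ z) = z
        rw [plane_plane, Subgroup.coe_inv, mul_inv_cancel, plane_one]
      continuous_toFun := by
        refine Continuous.subtype_mk ((plane_continuous e.2.1).comp continuous_subtype_val) _
      continuous_invFun := by
        refine Continuous.subtype_mk ((plane_continuous (e⁻¹).2.1).comp continuous_subtype_val) _ }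
  map_one' := by ext z; rfl
  map_mul' e f := by ext z; rfl

lemma toHomeo_apply (e : AutOf cantorSet) (z : S) :
    ((toHomeo e z : S) : ℂ) = plane (e : Equiv.Perm ℝ) z := rfl

/-! ### Winding numbers -/

lemma re_pos_of_plane {e : Equiv.Perm ℝ} (he : StrictMono e) {z p : ℂ} (hz : z ≠ p) :
    0 < ((plane e z - plane e p) / (z - p)).re := by
  have hne : z - p ≠ 0 := sub_ne_zero.mpr hz
  rw [Complex.div_re]
  have hn : 0 < normSq (z - p) := normSq_pos.mpr hne
  rw [← add_div]
  refine div_pos ?_ hn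
  simp only [plane, Complex.sub_re, Complex.sub_im]
  have h1 : 0 ≤ (e z.re - e p.re) * (z.re - p.re) := by
    rcases le_total z.re p.re with h | h
    · have := he.monotone h
      nlinarith
    · have := he.monotone h
      nlinarith
  rcases eq_or_ne z.im p.im with h | h
  · have hre : z.re ≠ p.re := fun h' => hz (Complex.ext h' h)
    have : 0 < (e z.re - e p.re) * (z.re - p.re) := by
      rcases lt_or_gt_of_ne hre with h' | h'
      · have := he h'
        nlinarith
      · have := he h'
        nlinarith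
    nlinarith [mul_self_nonneg (z.im - p.im)]
  · have : 0 < (z.im - p.im) * (z.im - p.im) := mul_self_pos.mpr (sub_ne_zero.mpr h)
    linarith

/-- Multiplying by a loop in the right half plane does not change winding numbers. -/
lemma HasWinding.mul_right {γ δ : ℝ → ℂ} {p q : ℂ} {k : ℤ} (h : HasWinding γ p k)
    (u : ℝ → ℂ) (hu : Continuous u) (hper : ∀ s, u (s + 1) = u s) (hpos : ∀ s, 0 < (u s).re)
    (hδ : ∀ s, δ s - q = (γ s - p) * u s) : HasWinding δ q k := by
  obtain ⟨a, ha, hap, hav⟩ := h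
  refine ⟨fun s => a s + (u s).arg, ?_, ?_, ?_⟩
  · refine ha.add (continuous_iff_continuousAt.mpr fun s => ?_)
    exact ContinuousAt.comp (f := u) (g := arg)
      (Complex.continuousAt_arg (Or.inl (hpos s))) hu.continuousAt
  · intro s
    simp only [hap, hper]; ring
  · intro s
    have hus : u s ≠ 0 := fun h => by have := hpos s; rw [h] at this; simp at this
    have hne : δ s - q ≠ 0 := by
      rw [hδ]; exact mul_ne_zero (sub_ne_zero.mpr (hav s).1) hus
    refine ⟨sub_ne_zero.mp hne, ?_⟩
    have h2 := Complex.norm_mul_exp_arg_mul_I (u s)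
    rw [hδ, norm_mul]
    push_cast
    rw [add_mul, Complex.exp_add]
    calc (γ s - p) * u s
        = ((‖γ s - p‖ : ℂ) * exp ((a s : ℂ) * I)) * ((‖u s‖ : ℂ) * exp (((u s).arg : ℂ) * I)) := by
          rw [h2, ← (hav s).2]
      _ = _ := by ring

lemma HasWinding.plane {γ : ℝ → ℂ} {p : ℂ} {k : ℤ} (h : HasWinding γ p k) (hγ : Continuous γ)
    (hper : ∀ s, γ (s + 1) = γ s) {e : Equiv.Perm ℝ} (he : StrictMono e) :
    HasWinding (fun s => BigMCG.plane e (γ s)) (BigMCG.plane e p) k := by
  have hne : ∀ s, γ s - p ≠ 0 := by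
    obtain ⟨a, -, -, hav⟩ := h
    exact fun s => sub_ne_zero.mpr (hav s).1
  refine h.mul_right (fun s => (BigMCG.plane e (γ s) - BigMCG.plane e p) / (γ s - p)) ?_ ?_ ?_ ?_
  · exact (((plane_continuous he).comp hγ).sub continuous_const).div
      (hγ.sub continuous_const) hne
  · intro s; simp only [hper]
  · intro s; exact re_pos_of_plane he (sub_ne_zero.mp (hne s))
  · intro s
    have := hne s
    field_simp

lemma toHomeo_op (e : AutOf cantorSet) : OrientationPreserving (toHomeo e) := by
  intro z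
  refine ⟨univ, Filter.univ_mem, fun γ hγ hper _ k => ⟨fun h => ?_, fun h => ?_⟩⟩
  · exact h.plane (continuous_subtype_val.comp hγ) (fun s => by simp only [hper s]) e.2.1
  · have hc : Continuous (fun s => ((toHomeo e (γ s) : S) : ℂ)) :=
      continuous_subtype_val.comp ((toHomeo e).continuous.comp hγ)
    have h2 := h.plane hc (fun s => by simp only [hper s]) (e⁻¹).2.1
    have h3 : ∀ w : S, BigMCG.plane ((e⁻¹ : AutOf cantorSet) : Equiv.Perm ℝ)
        ((toHomeo e w : S) : ℂ) = w := by
      intro w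
      rw [toHomeo_apply, plane_plane, Subgroup.coe_inv, inv_mul_cancel, plane_one]
    simpa only [h3] using h2

/-- The homomorphism `Aut(C) → Homeo⁺(S)`. -/
noncomputable def toHomeoPlus : AutOf cantorSet →* HomeoPlus :=
  toHomeo.codRestrict HomeoPlus (fun e => toHomeo_op e)

/-- The homomorphism `Aut(C) → Map(S)`. -/
noncomputable def toMap : AutOf cantorSet →* MapS :=
  (QuotientGroup.mk' Homeo0Plus).comp toHomeoPlus

/-! #### uniqueness and homotopy invariance -/

/-- a continuous integer-valued function is constant -/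
lemma int_const {X : Type} [TopologicalSpace X] [PreconnectedSpace X] (f : X → ℝ)
    (hf : Continuous f) (hint : ∀ x, ∃ n : ℤ, f x = n) (x y : X) : f x = f y := by
  choose n hn using hint
  have hc : Continuous n := by
    rw [Int.isClosedEmbedding_coe_real.isInducing.continuous_iff]
    have : ((fun m : ℤ => (m : ℝ)) ∘ n) = f := by ext x; simp [hn]
    rw [this]; exact hf
  have := PreconnectedSpace.constant (f := n) inferInstance hc (x := x) (y := y)
  rw [hn, hn, this]

lemma exp_I_eq {a b : ℝ} (h : exp ((a : ℂ) * I) = exp ((b : ℂ) * I)) :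
    ∃ n : ℤ, (a - b) / (2 * Real.pi) = n := by
  rw [Complex.exp_eq_exp_iff_exists_int] at h
  obtain ⟨n, hn⟩ := h
  refine ⟨n, ?_⟩
  have h2 := congrArg Complex.im hn
  simp at h2
  have hpi := Real.pi_pos
  field_simp
  linarith

lemma HasWinding.unique {γ : ℝ → ℂ} {p : ℂ} {k l : ℤ} (hk : HasWinding γ p k)
    (hl : HasWinding γ p l) : k = l := by
  obtain ⟨a, ha, hap, hav⟩ := hk
  obtain ⟨b, hb, hbp, hbv⟩ := hl
  have hint : ∀ s, ∃ n : ℤ, (a s - b s) / (2 * Real.pi) = n := by
    intro s
    refine exp_I_eq ?_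
    have h1 := (hav s).2
    have h2 := (hbv s).2
    have hne : (‖γ s - p‖ : ℂ) ≠ 0 := by
      have := norm_ne_zero_iff.mpr (sub_ne_zero.mpr (hav s).1)
      exact_mod_cast this
    exact mul_left_cancel₀ hne (h1.symm.trans h2)
  have h3 : (a (0 + 1) - b (0 + 1)) / (2 * Real.pi) = (a 0 - b 0) / (2 * Real.pi) :=
    int_const (fun s => (a s - b s) / (2 * Real.pi)) (by fun_prop) hint (0 + 1) 0
  rw [hap, hbp] at h3
  have hpi := Real.pi_pos
  field_simp at h3
  have : (k : ℝ) = l := by
    have h4 : (2 * Real.pi) * (k : ℝ) = (2 * Real.pi) * (l : ℝ) := by linarith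
    exact mul_left_cancel₀ (by positivity) h4
  exact_mod_cast this

/-- Homotopy invariance of winding numbers. -/
lemma winding_homotopy (G : ℝ × ℝ → ℂ) (hG : Continuous G) (hne : ∀ x, G x ≠ 0)
    (hper : ∀ t s, G (t, s + 1) = G (t, s)) {k : ℤ} (h0 : HasWinding (fun s => G (0, s)) 0 k) :
    HasWinding (fun s => G (1, s)) 0 k := by
  have hsc : IsSimplyConnected (univ : Set (ℝ × ℝ)) := by
    have : ContractibleSpace (univ : Set (ℝ × ℝ)) :=
      (convex_univ : Convex ℝ (univ : Set (ℝ × ℝ))).contractibleSpace univ_nonempty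
    exact SimplyConnectedSpace.ofContractible _
  obtain ⟨L, hLc, hL⟩ := Complex.exists_continuousOn_eqOn_exp_comp (g := G) hsc isOpen_univ
    hG.continuousOn (by rintro ⟨x, -, hx⟩; exact hne x hx)
  have hLc : Continuous L := continuousOn_univ.mp hLc
  have hL : ∀ x, exp (L x) = G x := fun x => hL (mem_univ x)
  have hint : ∀ x : ℝ × ℝ, ∃ n : ℤ, ((L (x.1, x.2 + 1)).im - (L x).im) / (2 * Real.pi) = n := by
    intro x
    have h1 : exp (L (x.1, x.2 + 1)) = exp (L x) := by rw [hL, hL, hper]
    rw [Complex.exp_eq_exp_iff_exists_int] at h1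
    obtain ⟨n, hn⟩ := h1
    refine ⟨n, ?_⟩
    rw [hn]
    have hpi := Real.pi_pos
    field_simp
    simp
    ring
  have hconst := fun x y => int_const
    (fun x : ℝ × ℝ => ((L (x.1, x.2 + 1)).im - (L x).im) / (2 * Real.pi)) (by fun_prop) hint x y
  obtain ⟨n, hn⟩ := hint (0, 0)
  have hall : ∀ t, HasWinding (fun s => G (t, s)) 0 n := by
    intro t
    refine ⟨fun s => (L (t, s)).im, by fun_prop, fun s => ?_, fun s => ⟨hne _, ?_⟩⟩
    · have h1 := hconst (t, s) (0, 0)
      simp only at h1 hn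
      rw [hn] at h1
      have hpi := Real.pi_pos
      field_simp at h1
      simp only
      linarith
    · show G (t, s) - 0 = (‖G (t, s) - 0‖ : ℂ) * exp (((L (t, s)).im : ℂ) * I)
      rw [sub_zero, ← hL, Complex.norm_exp, Complex.ofReal_exp, ← Complex.exp_add,
        Complex.re_add_im]
  have := (hall 0).unique h0
  rw [← this]
  exact hall 1

/-! ### Round circles -/

/-- The circle of centre `m` and radius `R`. -/
noncomputable def circ (m R : ℝ) (s : ℝ) : ℂ := (m : ℂ) + R * exp (((2 * Real.pi * s : ℝ) : ℂ) * I)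

lemma circ_continuous (m R : ℝ) : Continuous (circ m R) := by
  unfold circ; fun_prop

lemma circ_periodic (m R s : ℝ) : circ m R (s + 1) = circ m R s := by
  unfold circ
  congr 2
  rw [Complex.exp_eq_exp_iff_exists_int]
  refine ⟨1, ?_⟩
  push_cast; ring

lemma circ_winding_inside {m R c : ℝ} (hc : |c - m| < R) : HasWinding (circ m R) c 1 := by
  have hR : 0 < R := lt_of_le_of_lt (abs_nonneg _) hc
  have hbase : HasWinding (circ m R) m 1 := by
    refine ⟨fun s => 2 * Real.pi * s, by fun_prop, fun s => by push_cast; ring, fun s => ?_⟩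
    have h1 : circ m R s - m = R * exp (((2 * Real.pi * s : ℝ) : ℂ) * I) := by
      unfold circ; ring
    have h2 : ‖circ m R s - m‖ = R := by
      rw [h1, norm_mul, Complex.norm_exp_ofReal_mul_I, mul_one, Complex.norm_real,
        Real.norm_of_nonneg hR.le]
    refine ⟨fun h => ?_, ?_⟩
    · rw [h, sub_self, norm_zero] at h2; linarith
    · rw [h2, h1]
  refine hbase.mul_right (fun s => 1 - ((c - m : ℝ) : ℂ) / R *
    exp (-(((2 * Real.pi * s : ℝ) : ℂ) * I))) (by fun_prop) (fun s => ?_) (fun s => ?_)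
    (fun s => ?_)
  · congr 2
    rw [Complex.exp_eq_exp_iff_exists_int]
    refine ⟨-1, ?_⟩
    push_cast; ring
  · have h1 : ‖((c - m : ℝ) : ℂ) / R * exp (-(((2 * Real.pi * s : ℝ) : ℂ) * I))‖ < 1 := by
      rw [norm_mul, norm_div, Complex.norm_real, Complex.norm_real, Real.norm_of_nonneg hR.le,
        Real.norm_eq_abs, ← neg_mul, ← Complex.ofReal_neg, Complex.norm_exp_ofReal_mul_I, mul_one,
        div_lt_one hR]
      exact hc
    have h2 := (abs_le.mp (Complex.abs_re_le_norm
      (((c - m : ℝ) : ℂ) / R * exp (-(((2 * Real.pi * s : ℝ) : ℂ) * I))))).2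
    rw [Complex.sub_re, Complex.one_re]
    linarith
  · have hR' : (R : ℂ) ≠ 0 := by exact_mod_cast hR.ne'
    have he : exp (((2 * Real.pi * s : ℝ) : ℂ) * I) * exp (-(((2 * Real.pi * s : ℝ) : ℂ) * I)) = 1 := by
      rw [← Complex.exp_add, add_neg_cancel, Complex.exp_zero]
    have h1 : circ m R s - m = R * exp (((2 * Real.pi * s : ℝ) : ℂ) * I) := by
      unfold circ; ring
    rw [h1]
    have h3 : (R : ℂ) * exp (((2 * Real.pi * s : ℝ) : ℂ) * I) * (1 - ((c - m : ℝ) : ℂ) / R *
        exp (-(((2 * Real.pi * s : ℝ) : ℂ) * I))) = R * exp (((2 * Real.pi * s : ℝ) : ℂ) * I) -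
        ((c - m : ℝ) : ℂ) * (R / R) * (exp (((2 * Real.pi * s : ℝ) : ℂ) * I) *
          exp (-(((2 * Real.pi * s : ℝ) : ℂ) * I))) := by ring
    rw [h3, he, div_self hR']
    unfold circ; push_cast; ring

lemma circ_winding_outside {m R q : ℝ} (hR : 0 < R) (hq : R < |q - m|) :
    HasWinding (circ m R) q 0 := by
  have hne : (m : ℝ) - q ≠ 0 := by
    intro h
    have : q - m = 0 := by linarith
    rw [this, abs_zero] at hq
    linarith
  have hneC : ((m - q : ℝ) : ℂ) ≠ 0 := by exact_mod_cast hne
  have hbase : HasWinding (fun _ => ((m - q : ℝ) : ℂ)) 0 0 := by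
    refine ⟨fun _ => (((m - q : ℝ) : ℂ)).arg, continuous_const, fun s => by simp, fun s => ?_⟩
    refine ⟨hneC, ?_⟩
    rw [sub_zero, Complex.norm_mul_exp_arg_mul_I]
  refine hbase.mul_right (fun s => 1 + (R : ℂ) / ((m - q : ℝ) : ℂ) *
    exp (((2 * Real.pi * s : ℝ) : ℂ) * I)) (by fun_prop) (fun s => ?_) (fun s => ?_)
    (fun s => ?_)
  · congr 2
    rw [Complex.exp_eq_exp_iff_exists_int]
    refine ⟨1, ?_⟩
    push_cast; ring
  · have h1 : ‖(R : ℂ) / ((m - q : ℝ) : ℂ) * exp (((2 * Real.pi * s : ℝ) : ℂ) * I)‖ < 1 := by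
      rw [norm_mul, norm_div, Complex.norm_real, Complex.norm_real, Real.norm_of_nonneg hR.le,
        Real.norm_eq_abs, Complex.norm_exp_ofReal_mul_I, mul_one,
        div_lt_one (abs_pos.mpr hne), abs_sub_comm]
      exact hq
    have h2 := (abs_le.mp (Complex.abs_re_le_norm
      ((R : ℂ) / ((m - q : ℝ) : ℂ) * exp (((2 * Real.pi * s : ℝ) : ℂ) * I)))).1
    rw [Complex.add_re, Complex.one_re]
    linarith
  · rw [sub_zero, mul_add, mul_one, ← mul_assoc, mul_div_cancel₀ _ hneC]
    unfold circ; push_cast; ring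

lemma circ_re_of_im {m R s : ℝ} (hR : 0 < R) (h : (circ m R s).im = 0) :
    (circ m R s).re = m - R ∨ (circ m R s).re = m + R := by
  have h1 : ‖circ m R s - m‖ = R := by
    have : circ m R s - m = R * exp (((2 * Real.pi * s : ℝ) : ℂ) * I) := by
      unfold circ; ring
    rw [this, norm_mul, Complex.norm_exp_ofReal_mul_I, mul_one, Complex.norm_real,
      Real.norm_of_nonneg hR.le]
  have h2 : circ m R s = (((circ m R s).re : ℝ) : ℂ) := Complex.ext rfl (by simpa using h)
  rw [h2, ← Complex.ofReal_sub, Complex.norm_real, Real.norm_eq_abs] at h1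
  rcases abs_choice ((circ m R s).re - m) with h3 | h3
  · right; linarith
  · left; linarith

/-! ### Isotopically trivial elements of `Aut(C)` act trivially on `C` -/

lemma exists_not_mem_cantor {a b : ℝ} (hab : a < b) : ∃ x ∈ Ioo a b, x ∉ cantorSet := by
  by_contra h
  push Not at h
  obtain ⟨c, hc1, hc2⟩ := exists_between hab
  obtain ⟨d, hd1, hd2⟩ := exists_between hc2
  have htd : IsTotallyDisconnected cantorSet := by
    have : TotallyDisconnectedSpace cantorSet :=
      cantorSetHomeomorphNatToBool.symm.totallyDisconnectedSpace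
    exact totallyDisconnectedSpace_subtype_iff.mp this
  have hsub : Icc c d ⊆ cantorSet := fun x hx => h x ⟨lt_of_lt_of_le hc1 hx.1,
    lt_of_le_of_lt hx.2 hd2⟩
  have := htd _ hsub isPreconnected_Icc (left_mem_Icc.mpr hd1.le) (right_mem_Icc.mpr hd1.le)
  linarith

lemma trivial_on_cantor (e : AutOf cantorSet) (he : toHomeo e ∈ Homeo0 S) :
    ∀ c ∈ cantorSet, (e : Equiv.Perm ℝ) c = c := by
  intro c hc
  by_contra hne
  set q : ℝ := (e : Equiv.Perm ℝ) c with hq
  have hqc : q ∈ cantorSet := (e.2.2 c).mpr hc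
  have hd : 0 < |q - c| := abs_pos.mpr (sub_ne_zero.mpr hne)
  obtain ⟨a, ⟨ha1, ha2⟩, ha3⟩ := exists_not_mem_cantor (show c - |q - c| < c by linarith)
  obtain ⟨b, ⟨hb1, hb2⟩, hb3⟩ := exists_not_mem_cantor (show c < c + |q - c| by linarith)
  set m : ℝ := (a + b) / 2 with hm
  set R : ℝ := (b - a) / 2 with hR
  have hR0 : 0 < R := by rw [hR]; linarith
  have hcin : |c - m| < R := by rw [abs_lt, hm, hR]; constructor <;> linarith
  have hqout : R < |q - m| := by
    rcases abs_cases (q - c) with ⟨h1, h2⟩ | ⟨h1, h2⟩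
    · rw [h1] at hb2
      have h3 : R < q - m := by rw [hm, hR]; linarith
      exact lt_of_lt_of_le h3 (le_abs_self _)
    · rw [h1] at ha1
      have h3 : R < -(q - m) := by rw [hm, hR]; linarith
      exact lt_of_lt_of_le h3 (neg_le_abs _)
  have hS : ∀ s, circ m R s ∉ planeCantor := by
    rintro s ⟨h1, h2⟩
    rcases circ_re_of_im hR0 h1 with h3 | h3
    · rw [h3] at h2
      apply ha3
      convert h2 using 1
      rw [hm, hR]; ring
    · rw [h3] at h2
      apply hb3
      convert h2 using 1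
      rw [hm, hR]; ring
  obtain ⟨Φ, -, hΦ0, hΦ1⟩ := he
  let G : ℝ × ℝ → ℂ := fun x =>
    (((Φ (projIcc 0 1 zero_le_one x.1, ⟨circ m R x.2, hS x.2⟩)).2 : S) : ℂ) - (q : ℂ)
  have hGc : Continuous G := by
    refine Continuous.sub ?_ continuous_const
    refine continuous_subtype_val.comp (continuous_snd.comp (Φ.continuous.comp ?_))
    refine Continuous.prodMk (continuous_projIcc.comp continuous_fst) ?_
    exact Continuous.subtype_mk ((circ_continuous m R).comp continuous_snd) _
  have hGne : ∀ x, G x ≠ 0 := by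
    intro x hx
    have h1 := (Φ (projIcc 0 1 zero_le_one x.1, ⟨circ m R x.2, hS x.2⟩)).2.2
    apply h1
    have h2 : (((Φ (projIcc 0 1 zero_le_one x.1, ⟨circ m R x.2, hS x.2⟩)).2 : S) : ℂ) = q :=
      sub_eq_zero.mp hx
    rw [h2]
    exact ⟨by simp, by simpa using hqc⟩
  have hGper : ∀ t s, G (t, s + 1) = G (t, s) := by
    intro t s
    simp only [G, circ_periodic]
  have h0 : HasWinding (fun s => G (0, s)) 0 0 := by
    obtain ⟨α, h1, h2, h3⟩ := circ_winding_outside hR0 hqout
    refine ⟨α, h1, h2, fun s => ?_⟩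
    have h4 : G (0, s) = circ m R s - q := by
      show (((Φ (projIcc 0 1 zero_le_one 0, ⟨circ m R s, hS s⟩)).2 : S) : ℂ) - (q : ℂ) = _
      rw [projIcc_left]
      have := hΦ0 ⟨circ m R s, hS s⟩
      change Φ (⟨0, _⟩, _) = _ at this
      rw [this]
    simp only [h4, sub_zero]
    exact ⟨sub_ne_zero.mpr (h3 s).1, (h3 s).2⟩
  have h1 := winding_homotopy G hGc hGne hGper h0
  have hpl : plane (e : Equiv.Perm ℝ) (c : ℂ) = (q : ℂ) := by
    apply Complex.ext
    · simp [plane, hq]
    · simp [plane]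
  have h2 : HasWinding (fun s => G (1, s)) 0 1 := by
    have h3 := (circ_winding_inside hcin).plane (circ_continuous m R) (circ_periodic m R) e.2.1
    rw [hpl] at h3
    obtain ⟨α, k1, k2, k3⟩ := h3
    refine ⟨α, k1, k2, fun s => ?_⟩
    have h4 : G (1, s) = plane (e : Equiv.Perm ℝ) (circ m R s) - q := by
      show (((Φ (projIcc 0 1 zero_le_one 1, ⟨circ m R s, hS s⟩)).2 : S) : ℂ) - (q : ℂ) = _
      rw [projIcc_right]
      have := hΦ1 ⟨circ m R s, hS s⟩
      change Φ (⟨1, _⟩, _) = _ at this
      rw [this]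
      rfl
    simp only [h4, sub_zero]
    exact ⟨sub_ne_zero.mpr (k3 s).1, (k3 s).2⟩
  have := h1.unique h2
  norm_num at this

end Pool.Agent.H880R2.BigMCG
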