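import Pool.Agent.H880R2.BigMCG.Line

namespace Pool.Agent.H880R2.BigMCG

open Set

/-- The periodic closed set `K = ½ C + ℤ`. -/
def K : Set ℝ := {x | 2 * Int.fract x ∈ cantorSet}

/-- The translation by one. -/
noncomputable def tau : Equiv.Perm ℝ := Equiv.addRight (1 : ℝ)

lemma tau_apply (x : ℝ) : tau x = x + 1 := rfl

lemma tau_zpow_apply (k : ℤ) (x : ℝ) : (tau ^ k : Equiv.Perm ℝ) x = x + k := by
  induction k using Int.induction_on generalizing x with
  | zero => simp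
  | succ n ih =>
    rw [zpow_add_one, Equiv.Perm.mul_apply, ih, tau_apply]; push_cast; ring
  | pred n ih =>
    rw [zpow_sub_one, Equiv.Perm.mul_apply, ih]
    have : tau⁻¹ x = x - 1 := by
      rw [Equiv.Perm.inv_eq_iff_eq, tau_apply]; ring
    rw [this]; push_cast; ring

lemma tau_mem : tau ∈ AutOf K := by
  refine ⟨fun x y h => by simpa [tau_apply] using h, fun x => ?_⟩
  simp [tau_apply, K, Int.fract_add_one]

/-- The group `W` of all increasing permutations of `ℝ` which preserve `K` and act on `ℤ` by a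
translation. -/
def W : Subgroup (Equiv.Perm ℝ) where
  carrier := {e | e ∈ AutOf K ∧ ∃ k : ℤ, ∀ n : ℤ, e n = n + k}
  one_mem' := ⟨(AutOf K).one_mem, 0, by simp⟩
  mul_mem' := by
    rintro e f ⟨h1, k, hk⟩ ⟨h2, l, hl⟩
    refine ⟨(AutOf K).mul_mem h1 h2, l + k, fun n => ?_⟩
    rw [Equiv.Perm.mul_apply, hl]
    have := hk (n + l)
    push_cast at this ⊢
    rw [this]; ring
  inv_mem' := by
    rintro e ⟨h1, k, hk⟩
    refine ⟨(AutOf K).inv_mem h1, -k, fun n => ?_⟩
    rw [Equiv.Perm.inv_eq_iff_eq]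
    have := hk (n - k)
    push_cast at this ⊢
    rw [← sub_eq_add_neg, this]; ring

/-- The normal subgroup of `W` of elements which fix `ℤ` pointwise. -/
def N : Subgroup W where
  carrier := {e | ∀ n : ℤ, (e : Equiv.Perm ℝ) n = n}
  one_mem' := by simp
  mul_mem' := by
    intro e f he hf n
    rw [Subgroup.coe_mul, Equiv.Perm.mul_apply, hf, he]
  inv_mem' := by
    intro e he n
    rw [Subgroup.coe_inv, Equiv.Perm.inv_eq_iff_eq, he]

instance : N.Normal where
  conj_mem := by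
    rintro n hn ⟨g, hg, k, hk⟩ m
    show (g * (n : Equiv.Perm ℝ) * g⁻¹ : Equiv.Perm ℝ) m = m
    rw [Equiv.Perm.mul_apply, Equiv.Perm.mul_apply]
    have h1 : (g⁻¹ : Equiv.Perm ℝ) (m : ℝ) = ((m - k : ℤ) : ℝ) := by
      rw [Equiv.Perm.inv_eq_iff_eq, hk]; push_cast; ring
    rw [h1, hn, hk]; push_cast; ring

/-- The translation as an element of `W`. -/
noncomputable def tauW : W := ⟨tau, tau_mem, 1, fun n => by simp [tau_apply]⟩

lemma W_decomp (w : W) : ∃ k : ℤ, w * (tauW ^ k)⁻¹ ∈ N := by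
  obtain ⟨w, hw, k, hk⟩ := w
  refine ⟨k, fun n => ?_⟩
  show (w * (tau ^ k)⁻¹ : Equiv.Perm ℝ) n = n
  rw [Equiv.Perm.mul_apply]
  have : ((tau ^ k)⁻¹ : Equiv.Perm ℝ) (n : ℝ) = ((n - k : ℤ) : ℝ) := by
    rw [Equiv.Perm.inv_eq_iff_eq, tau_zpow_apply]; push_cast; ring
  rw [this, hk]; push_cast; ring

section swindle

variable (s : Equiv.Perm ℝ)

/-- The map conjugating the translation `tau` to `s`. -/
noncomputable def conjFun (x : ℝ) : ℝ := (s ^ ⌊x⌋ : Equiv.Perm ℝ) (Int.fract x)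

variable {s}

lemma zpow_int (hs : ∀ n : ℤ, s n = n + 1) (k n : ℤ) : (s ^ k : Equiv.Perm ℝ) n = n + k := by
  induction k using Int.induction_on generalizing n with
  | zero => simp
  | succ m ih =>
    rw [zpow_add_one, Equiv.Perm.mul_apply, hs]
    have := ih (n + 1)
    push_cast at this ⊢
    rw [this]; ring
  | pred m ih =>
    rw [zpow_sub_one, Equiv.Perm.mul_apply]
    have h : s⁻¹ (n : ℝ) = ((n - 1 : ℤ) : ℝ) := by
      rw [Equiv.Perm.inv_eq_iff_eq, hs]; push_cast; ring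
    rw [h, ih]; push_cast; ring

lemma zpow_zero' (hs : ∀ n : ℤ, s n = n + 1) (k : ℤ) : (s ^ k : Equiv.Perm ℝ) 0 = k := by
  have := zpow_int hs k 0
  simpa using this

lemma zpow_one' (hs : ∀ n : ℤ, s n = n + 1) (k : ℤ) : (s ^ k : Equiv.Perm ℝ) 1 = 1 + k := by
  have := zpow_int hs k 1
  simpa using this

lemma conjFun_strictMono (hs : ∀ n : ℤ, s n = n + 1) (hm : StrictMono s) :
    StrictMono (conjFun s) := by
  intro x y hxy
  unfold conjFun
  rcases (Int.floor_mono hxy.le).lt_or_eq with h | h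
  · have h1 : (s ^ ⌊x⌋ : Equiv.Perm ℝ) (Int.fract x) < (s ^ ⌊x⌋ : Equiv.Perm ℝ) 1 :=
      strictMono_zpow hm _ (Int.fract_lt_one x)
    have h2 : (s ^ ⌊y⌋ : Equiv.Perm ℝ) 0 ≤ (s ^ ⌊y⌋ : Equiv.Perm ℝ) (Int.fract y) :=
      (strictMono_zpow hm _).monotone (Int.fract_nonneg y)
    rw [zpow_one' hs] at h1
    rw [zpow_zero' hs] at h2
    have h3 : (⌊x⌋ : ℝ) + 1 ≤ ⌊y⌋ := by exact_mod_cast h
    linarith
  · rw [h]
    refine strictMono_zpow hm _ ?_
    unfold Int.fract
    rw [h]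
    linarith

lemma conjFun_surjective (hs : ∀ n : ℤ, s n = n + 1) (hm : StrictMono s) :
    Function.Surjective (conjFun s) := by
  intro y
  set k := ⌊y⌋ with hk
  set z := (s ^ (-k) : Equiv.Perm ℝ) y with hz
  have hy : y = (s ^ k : Equiv.Perm ℝ) z := by
    rw [hz, ← Equiv.Perm.mul_apply, ← zpow_add]; simp
  have h0 : 0 ≤ z := by
    by_contra h
    push Not at h
    have := strictMono_zpow hm k h
    rw [← hy, zpow_zero' hs] at this
    exact absurd (Int.floor_le y) (not_le.mpr this)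
  have h1 : z < 1 := by
    by_contra h
    push Not at h
    have := (strictMono_zpow hm k).monotone h
    rw [← hy, zpow_one' hs] at this
    have h2 := Int.lt_floor_add_one y
    linarith
  refine ⟨k + z, ?_⟩
  have hf : ⌊(k : ℝ) + z⌋ = k := by
    rw [Int.floor_intCast_add, Int.floor_eq_zero_iff.mpr ⟨h0, h1⟩, add_zero]
  have hfr : Int.fract ((k : ℝ) + z) = z := by
    rw [Int.fract_intCast_add, Int.fract_eq_self.mpr ⟨h0, h1⟩]
  unfold conjFun
  rw [hf, hfr, ← hy]

/-- The conjugating map as a permutation. -/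
noncomputable def conjPerm (hs : ∀ n : ℤ, s n = n + 1) (hm : StrictMono s) : Equiv.Perm ℝ :=
  Equiv.ofBijective (conjFun s) ⟨(conjFun_strictMono hs hm).injective, conjFun_surjective hs hm⟩

lemma conjPerm_apply (hs : ∀ n : ℤ, s n = n + 1) (hm : StrictMono s) (x : ℝ) :
    conjPerm hs hm x = (s ^ ⌊x⌋ : Equiv.Perm ℝ) (Int.fract x) := rfl

end swindle

/-- Every element of `N` is a commutator `[a, tau]`. -/
lemma swindle (n : W) (hn : n ∈ N) : ∃ a : W, n = a * tauW * a⁻¹ * tauW⁻¹ := by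
  have hs : ∀ m : ℤ, ((n : Equiv.Perm ℝ) * tau) m = m + 1 := by
    intro m
    rw [Equiv.Perm.mul_apply, tau_apply]
    have := hn (m + 1)
    push_cast at this
    exact this
  have hmem : (n : Equiv.Perm ℝ) * tau ∈ AutOf K := (AutOf K).mul_mem n.2.1 tau_mem
  have hm := hmem.1
  have hconj : ∀ x, conjPerm hs hm (x + 1) = ((n : Equiv.Perm ℝ) * tau) (conjPerm hs hm x) := by
    intro x
    rw [conjPerm_apply, conjPerm_apply, Int.floor_add_one, Int.fract_add_one, add_comm ⌊x⌋ 1,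
      zpow_add, zpow_one, Equiv.Perm.mul_apply]
  have hK : conjPerm hs hm ∈ AutOf K := by
    refine ⟨conjFun_strictMono hs hm, fun x => ?_⟩
    rw [conjPerm_apply, mem_zpow_iff hmem]
    simp only [K, mem_ofPred_eq, Int.fract_fract]
  refine ⟨⟨conjPerm hs hm, hK, 0, fun m => ?_⟩, ?_⟩
  · rw [conjPerm_apply, Int.floor_intCast, Int.fract_intCast, zpow_zero' hs]
    simp
  · rw [eq_mul_inv_iff_mul_eq, eq_mul_inv_iff_mul_eq]
    ext x
    show ((n : Equiv.Perm ℝ) * tau * conjPerm hs hm) x = (conjPerm hs hm * tau) x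
    rw [Equiv.Perm.mul_apply, Equiv.Perm.mul_apply (conjPerm hs hm), tau_apply, hconj]

/-- Every homogeneous quasimorphism on `W` is a homomorphism. -/
theorem W_hom : ∀ φ ∈ Q W, ∀ g h : W, φ (g * h) = φ g + φ h :=
  fun φ hφ => quasi_hom_of_swindle N tauW W_decomp swindle φ hφ

end Pool.Agent.H880R2.BigMCG
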